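import Pool.Agent.H504.BC.Tune

/-!
# The central index of the hypersurface of a set of relations
-/

set_option autoImplicit false

open CategoryTheory AlgebraicGeometry MvPolynomial Pool.Agent.Y116.UV Pool.Agent.Z125.UN
  Pool.Agent.Q193.LT Pool.Agent.H854.SQ Pool.Agent.H367.OS

namespace Pool.Agent.H504.BC

section general

variable {R : Type} [CommRing R] {V W V' W' : Type} [Fintype W] [Fintype W']

/-- The polynomial `∑_w t_w f_w`. -/
noncomputable def cubP (f : W → MvPolynomial V R) : MvPolynomial (W ⊕ V) R :=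
  ∑ w, X (Sum.inl w) * rename Sum.inr (f w)

/-- The ring of the hypersurface `∑_w t_w f_w = 1`. -/
abbrev CubR (f : W → MvPolynomial V R) : Type :=
  MvPolynomial (W ⊕ V) R ⧸ Ideal.span {cubP f - 1}

lemma rename_cubP (σ : V ≃ V') (τ : W ≃ W') (f : W → MvPolynomial V R)
    (f' : W' → MvPolynomial V' R) (h : ∀ w, f' (τ w) = rename σ (f w)) :
    rename (Equiv.sumCongr τ σ) (cubP f) = cubP f' := by
  rw [cubP, cubP, map_sum]
  refine Fintype.sum_equiv τ _ _ fun w => ?_
  rw [map_mul, rename_X, h, rename_rename, rename_rename]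
  rfl

/-- Renaming the variables. -/
noncomputable def cubCongr (σ : V ≃ V') (τ : W ≃ W') (f : W → MvPolynomial V R)
    (f' : W' → MvPolynomial V' R) (h : ∀ w, f' (τ w) = rename σ (f w)) : CubR f ≃ₐ[R] CubR f' :=
  Ideal.quotientEquivAlg _ _ (renameEquiv R (Equiv.sumCongr τ σ)) (by
    rw [Ideal.map_span, Set.image_singleton]
    congr 2
    change _ = rename (Equiv.sumCongr τ σ) (cubP f - 1)
    rw [map_sub, map_one, rename_cubP σ τ f f' h])

/-- The hypersurface as an affine bundle. -/
noncomputable def cubJou (f : W → MvPolynomial V R) :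
    CubR f ≃ₐ[R] Jou (fun l => f ((Fintype.equivFin W).symm l)) :=
  (cubCongr (Equiv.refl V) (Fintype.equivFin W) f (fun l => f ((Fintype.equivFin W).symm l))
    (fun w => by
      rw [Equiv.symm_apply_apply]
      change _ = rename id (f w)
      rw [rename_id]
      rfl)).trans (cubEquiv (fun l => f ((Fintype.equivFin W).symm l)))

lemma cubR_smooth [Finite V] (f : W → MvPolynomial V R) : Algebra.Smooth R (CubR f) := by
  let f' := fun l => f ((Fintype.equivFin W).symm l)
  have h1 : Algebra.Smooth (MvPolynomial V R) (Jou f') := jou_smooth _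
  have h2 : Algebra.Smooth R (MvPolynomial V R) := ⟨inferInstance, inferInstance⟩
  have h3 : Algebra.Smooth R (Jou f') := Algebra.Smooth.comp R (MvPolynomial V R) _
  exact Algebra.Smooth.of_equiv (cubJou f).symm

end general

section

/-- The polynomial `F_s = ∑_{r ∈ s} t_r ρ_r(x_1, …, x_n)` of a set of relations `r` between `n` variables;
`ρ_r` is `x_i x_j - x_l`, `x_i + x_j - x_l` or `x_i - 1`. -/
noncomputable def relCub (R : Type) [CommRing R] {n : ℕ} (s : Finset (Rel (Fin n))) :
    MvPolynomial (s ⊕ Fin n) R :=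
  ∑ r : s, X (Sum.inl r) * rename Sum.inr (relPoly R r.1)

/-- The affine hypersurface `F_s = 1` over `R`. -/
noncomputable def relHyp (R : Type) [CommRing R] {n : ℕ} (s : Finset (Rel (Fin n))) : Sch R :=
  aff R (MvPolynomial (s ⊕ Fin n) R ⧸ Ideal.span {relCub R s - 1})

lemma relCub_eq (R : Type) [CommRing R] {n : ℕ} (s : Finset (Rel (Fin n))) :
    relCub R s = cubP (fun r : s => relPoly R r.1) := rfl

/-- The hypersurface is smooth over all rings. -/
theorem smooth_relHyp (R : Type) [CommRing R] {n : ℕ} (s : Finset (Rel (Fin n))) :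
    Smooth (relHyp R s).hom := by
  change Smooth (Spec.map (CommRingCat.ofHom (algebraMap R
    (MvPolynomial (s ⊕ Fin n) R ⧸ Ideal.span {relCub R s - 1}))))
  rw [HasRingHomProperty.Spec_iff (P := @Smooth)]
  exact RingHom.smooth_algebraMap.mpr (cubR_smooth fun r : s => relPoly R r.1)

/-- The coefficients are integral. -/
theorem map_relCub {R S : Type} [CommRing R] [CommRing S] (φ : R →+* S) {n : ℕ}
    (s : Finset (Rel (Fin n))) : MvPolynomial.map φ (relCub R s) = relCub S s := by
  rw [relCub, map_sum, relCub]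
  refine Finset.sum_congr rfl fun r _ => ?_
  rw [map_mul, map_X, map_rename]
  congr 2
  rcases r.1 with ⟨i, j, l⟩ | ⟨i, j, l⟩ | i <;> simp [relPoly]

/-- The degree is at most three. -/
theorem totalDegree_relCub (R : Type) [CommRing R] [Nontrivial R] {n : ℕ}
    (s : Finset (Rel (Fin n))) : (relCub R s).totalDegree ≤ 3 := by
  refine totalDegree_finsetSum_le fun r _ => (totalDegree_mul _ _).trans ?_
  have h0 : (relPoly R r.1).totalDegree ≤ 2 := by
    rcases r.1 with ⟨i, j, l⟩ | ⟨i, j, l⟩ | i
    · refine (totalDegree_sub _ _).trans (max_le ((totalDegree_mul _ _).trans ?_) ?_)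
      · rw [totalDegree_X, totalDegree_X]
      · rw [totalDegree_X]
        norm_num
    · refine (totalDegree_sub _ _).trans (max_le ((totalDegree_add _ _).trans ?_) ?_)
      · rw [totalDegree_X, totalDegree_X]
        norm_num
      · rw [totalDegree_X]
        norm_num
    · refine (totalDegree_sub _ _).trans (max_le ?_ ?_)
      · rw [totalDegree_X]
        norm_num
      · rw [totalDegree_one]
        norm_num
  have h1 := (totalDegree_rename_le (Sum.inr : Fin n → s ⊕ Fin n) (relPoly R r.1)).trans h0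
  have h2 : (X (Sum.inl r) : MvPolynomial (s ⊕ Fin n) R).totalDegree ≤ 1 := (totalDegree_X _).le
  omega

end

section

variable {k : Type} [Field k] {P : ℤ → Sch k → Prop} (hP : Lined P)

include hP

lemma zero_iff' {V W : Type} [Finite V] [Fintype W] (f : W → MvPolynomial V k) (q : ℤ) :
    P (q + (Fintype.card W - 1)) (aff k (CubR f)) ↔ P q (aff k (ZeroRing f)) := by
  let f' := fun l => f ((Fintype.equivFin W).symm l)
  have h1 := zero_iff hP f' q
  have h2 : Ideal.span (Set.range f') = Ideal.span (Set.range f) := by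
    congr 1
    exact (Fintype.equivFin W).symm.surjective.range_comp f
  have hV : Algebra.FiniteType k (MvPolynomial V k) := ftMv k V
  have hV2 : Algebra.FiniteType k (MvPolynomial (W ⊕ V) k) := ftMv k _
  have h3 : Algebra.FiniteType k (ZeroRing f) :=
    Algebra.FiniteType.trans (S := MvPolynomial V k) hV inferInstance
  have h4 : Algebra.FiniteType k (ZeroRing f') :=
    Algebra.FiniteType.trans (S := MvPolynomial V k) hV inferInstance
  have h5 : Algebra.FiniteType k (CubR f) :=
    Algebra.FiniteType.trans (S := MvPolynomial (W ⊕ V) k) hV2 inferInstance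
  let e : ZeroRing f' ≃ₐ[k] ZeroRing f := Ideal.quotientEquivAlgOfEq k h2
  let e' : CubR f ≃ₐ[k] CubRing f' := (cubJou f).trans (cubEquiv f').symm
  have h6 : Algebra.FiniteType k (CubRing f') := Algebra.FiniteType.equiv h5 e'
  exact ⟨fun h => hP.iso_alg e (h1.mp (hP.iso_alg e' h)),
    fun h => hP.iso_alg e'.symm (h1.mpr (hP.iso_alg e.symm h))⟩

end

section

variable {k : Type} [Field k]

/-- From a system of relations to a set of relations between the variables `x_1, …, x_n`. -/
theorem St.hyp {B : Type} [CommRing B] [Algebra k B] {q q' b : ℤ} {c : ℕ}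
    (h : St k B q q' c b) (hc : q' ≤ c) :
    ∃ (n : ℕ) (s : Finset (Rel (Fin n))), s.Nonempty ∧ (s.card + n : ℤ) = 2 * c + 2 - b ∧
      ∀ P : ℤ → Sch k → Prop, Lined P → (P c (relHyp k s) ↔ P q (aff k B)) := by
  classical
  obtain ⟨V, W, hV, hW, r, hr, h1, h2, h3⟩ := h
  let σ := Fintype.equivFin V
  let g : W → Rel (Fin (Fintype.card V)) := fun w => (r w).map σ
  have hg : Function.Injective g := (map_injective σ.injective).comp hr
  let s : Finset (Rel (Fin (Fintype.card V))) := Finset.univ.image g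
  have hs : s.card = Fintype.card W := by
    rw [Finset.card_image_of_injective _ hg, Finset.card_univ]
  let τ : W ≃ s := Equiv.ofBijective (fun w => ⟨g w, Finset.mem_image_of_mem _ (Finset.mem_univ w)⟩)
    ⟨fun a b hab => hg (congrArg Subtype.val hab), fun b => by
      obtain ⟨w, _, hw⟩ := Finset.mem_image.1 b.2
      exact ⟨w, Subtype.ext hw⟩⟩
  refine ⟨Fintype.card V, s, ?_, ?_, fun P hP => ?_⟩
  · rw [← Finset.card_pos, hs]
    omega
  · rw [hs, h1, h2]
    ring
  · rw [← h3 P hP]
    have h4 : (c : ℤ) = q' + (Fintype.card W - 1) := by rw [h1]; ring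
    have h5 := zero_iff' hP (fun w => relPoly k (r w)) q'
    rw [← h4] at h5
    rw [← h5]
    let e : CubR (fun w => relPoly k (r w)) ≃ₐ[k] CubR (fun x : s => relPoly k x.1) :=
      cubCongr σ τ _ _ fun w => (rename_rel σ (r w)).symm
    have hV2 : Algebra.FiniteType k (MvPolynomial (W ⊕ V) k) := ftMv k _
    have h6 : Algebra.FiniteType k (CubR (fun w => relPoly k (r w))) :=
      Algebra.FiniteType.trans (S := MvPolynomial (W ⊕ V) k) hV2 inferInstance
    have h7 : Algebra.FiniteType k (CubR (fun x : s => relPoly k x.1)) :=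
      Algebra.FiniteType.equiv h6 e
    exact ⟨hP.iso_alg e.symm, hP.iso_alg e⟩

/-- **The central index is sufficient.** For every algebra `B` of finite type over the prime field, all
integers `q`, `δ` and all large `c` there is a set `s` of relations between `n` variables with
`n + |s| = 2 c + 2 + δ` such that for all families of properties (`Lined`), the property of index `q` of
`Spec B` is equivalent to the property of index `c` of the hypersurface `F_s = 1`, whose dimension is
`2 c + 1 + δ`. -/
theorem central (hk : IsPrimeField k) (B : Type) [CommRing B] [Algebra k B]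
    [Algebra.FiniteType k B] (δ q : ℤ) : ∃ c₀ : ℕ, ∀ c : ℕ, c₀ ≤ c →
      ∃ (n : ℕ) (s : Finset (Rel (Fin n))), s.Nonempty ∧ (s.card + n : ℤ) = 2 * c + 2 + δ ∧
        ∀ P : ℤ → Sch k → Prop, Lined P → (P c (relHyp k s) ↔ P q (aff k B)) := by
  obtain ⟨q', c', β, h⟩ := St.start (B := B) hk q
  obtain ⟨q'', c'', h'⟩ := h.tune (-δ) _ rfl
  refine ⟨max c''.toNat q''.toNat, fun c hc => ?_⟩
  have h1 := h'.raise (c - c'').toNat
  have h2 : c'' + ((c - c'').toNat : ℤ) = c := by omega
  rw [h2] at h1
  have h3 := h1.hyp (by omega)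
  rwa [sub_neg_eq_add] at h3

/-- The property of index `c` of all hypersurfaces `F_s = 1` of dimension `2 c + 1 + δ`. -/
def LineAt (k : Type) [Field k] (P : ℤ → Sch k → Prop) (δ : ℤ) (c : ℕ) : Prop :=
  ∀ (n : ℕ) (s : Finset (Rel (Fin n))), s.Nonempty → (s.card + n : ℤ) = 2 * c + 2 + δ →
    P c (relHyp k s)

/-- For every separated scheme of finite type and every `q`, the hypersurfaces of one dimension are
sufficient, for all large dimensions. -/
theorem central_single (hk : IsPrimeField k) (δ q : ℤ) (X : Sch k) (hX : FT True X) :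
    ∃ c₀ : ℕ, ∀ c : ℕ, c₀ ≤ c → ∀ P : ℤ → Sch k → Prop, Lined P → LineAt k P δ c → P q X := by
  refine of_affine' (sep := True) (P := fun X => ∃ c₀ : ℕ, ∀ c : ℕ, c₀ ≤ c →
    ∀ P : ℤ → Sch k → Prop, Lined P → LineAt k P δ c → P q X)
    ?_ ?_ (fun B _ _ _ => ?_) X hX
  · rintro X Y hX e ⟨c₀, h⟩
    exact ⟨c₀, fun c hc P hP h1 => hP.iso hX e q (h c hc P hP h1)⟩
  · rintro Z X U i j hX ht ⟨c₀, h⟩ ⟨c₁, h'⟩
    exact ⟨max c₀ c₁, fun c hc P hP h1 => hP.total i j hX ht q
      (h c ((le_max_left _ _).trans hc) P hP h1) (h' c ((le_max_right _ _).trans hc) P hP h1)⟩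
  · obtain ⟨c₀, h⟩ := central hk B δ q
    refine ⟨c₀, fun c hc P hP h1 => ?_⟩
    obtain ⟨n, s, hs, hns, h2⟩ := h c hc
    exact (h2 P hP).mp (h1 n s hs hns)

/-- **All indices of all schemes and one line of indices of the hypersurfaces.** -/
theorem central_tfae (hk : IsPrimeField k) (hH : Hironaka k) {P : ℤ → Sch k → Prop}
    (hP : Lined P) (δ : ℤ) :
    List.TFAE [∃ᶠ c in Filter.atTop, LineAt k P δ c, ∀ c, LineAt k P δ c,
      ∀ Y : Sch k, SmoothProj Y → ∀ q, P q Y,
      ∀ X : Sch k, FT True X → ∀ q, P q X] := by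
  tfae_have 1 → 4 := fun h X hX q => by
    obtain ⟨c₀, h1⟩ := central_single hk δ q X hX
    obtain ⟨c, hc, h2⟩ := (Filter.frequently_atTop.1 h) c₀
    exact h1 c hc P hP h2
  tfae_have 4 → 2 := fun h c n s _ _ => by
    have hV2 : Algebra.FiniteType k (MvPolynomial (s ⊕ Fin n) k) := ftMv k _
    have h6 : Algebra.FiniteType k (MvPolynomial (s ⊕ Fin n) k ⧸ Ideal.span {relCub k s - 1}) :=
      Algebra.FiniteType.trans (S := MvPolynomial (s ⊕ Fin n) k) hV2 inferInstance
    exact h _ (ft_aff True) _
  tfae_have 2 → 1 := fun h => (Filter.Eventually.of_forall h).frequently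
  tfae_have 4 → 3 := fun h Y hY q => h Y hY.ft q
  tfae_have 3 → 4 := fun h X hX q => hP.of_smoothProj hH q (fun Y hY => h Y hY q) X hX
  tfae_finish

end

end Pool.Agent.H504.BC
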