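import Pool.Agent.H504.BC.Quad

/-!
# One more quadric
-/

set_option autoImplicit false

open CategoryTheory AlgebraicGeometry MvPolynomial Pool.Agent.Y116.UV Pool.Agent.Z125.UN
  Pool.Agent.Q193.LT Pool.Agent.H854.SQ Pool.Agent.H367.OS

namespace Pool.Agent.H504.BC

section

variable (R B : Type) [CommRing R] [CommRing B] [Algebra R B] (K : ℕ)

/-- The ring of the quadric over `B`. -/
abbrev QR : Type := Jou (fun l : Fin K => (X l : MvPolynomial (Fin K) B))

/-- The structure map. -/
noncomputable def qb : B →ₐ[R] QR B K :=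
  ((Ideal.Quotient.mkₐ R _).comp (IsScalarTower.toAlgHom R (MvPolynomial (Fin K) B)
      (MvPolynomial (Fin K) (MvPolynomial (Fin K) B)))).comp
    (IsScalarTower.toAlgHom R B (MvPolynomial (Fin K) B))

variable {K}

/-- The first coordinates. -/
noncomputable def qx (l : Fin K) : QR B K :=
  Ideal.Quotient.mk _ (C (X l : MvPolynomial (Fin K) B) :
    MvPolynomial (Fin K) (MvPolynomial (Fin K) B))

/-- The second coordinates. -/
noncomputable def qy (l : Fin K) : QR B K :=
  Ideal.Quotient.mk _ (X l : MvPolynomial (Fin K) (MvPolynomial (Fin K) B))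

variable (K)

lemma q_rel : ∑ l : Fin K, qx B l * qy B l = 1 := by
  have h : (Ideal.Quotient.mk (Ideal.span {∑ l : Fin K, C (X l : MvPolynomial (Fin K) B) *
      (X l : MvPolynomial (Fin K) (MvPolynomial (Fin K) B)) - 1}))
      (∑ l : Fin K, C (X l : MvPolynomial (Fin K) B) *
      (X l : MvPolynomial (Fin K) (MvPolynomial (Fin K) B)) - 1) = 0 :=
    Ideal.Quotient.eq_zero_iff_mem.2 (Ideal.subset_span (Set.mem_singleton _))
  rw [map_sub, map_one, map_sum, sub_eq_zero] at h
  rw [← h]
  refine Finset.sum_congr rfl fun l _ => ?_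
  rw [map_mul]
  rfl

variable {K} {B} {R} {S : Type} [CommRing S] [Algebra R S]

/-- The map to `S` on polynomials. -/
noncomputable def qpre (g : B →ₐ[R] S) (x y : Fin K → S) :
    MvPolynomial (Fin K) (MvPolynomial (Fin K) B) →ₐ[R] S :=
  aevalTower (aevalTower g x) y

/-- The universal property of the quadric. -/
noncomputable def qlift (g : B →ₐ[R] S) (x y : Fin K → S) (h : ∑ l, x l * y l = 1) :
    QR B K →ₐ[R] S :=
  Ideal.Quotient.liftₐ _ (qpre g x y) (by
    intro p hp
    have h1 : Ideal.span {∑ l : Fin K, C (X l : MvPolynomial (Fin K) B) *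
        (X l : MvPolynomial (Fin K) (MvPolynomial (Fin K) B)) - 1} ≤
        RingHom.ker (qpre g x y) := by
      rw [Ideal.span_le, Set.singleton_subset_iff]
      change qpre g x y _ = 0
      rw [map_sub, map_one, map_sum, sub_eq_zero, ← h]
      refine Finset.sum_congr rfl fun l _ => ?_
      rw [map_mul, qpre, aevalTower_C, aevalTower_X]
      erw [aevalTower_X]
    exact h1 hp)

lemma qlift_mk (g : B →ₐ[R] S) (x y : Fin K → S) (h : ∑ l, x l * y l = 1)
    (p : MvPolynomial (Fin K) (MvPolynomial (Fin K) B)) :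
    qlift g x y h (Ideal.Quotient.mk _ p) = qpre g x y p := rfl

lemma qlift_b (g : B →ₐ[R] S) (x y : Fin K → S) (h : ∑ l, x l * y l = 1) (b : B) :
    qlift g x y h (qb R B K b) = g b := by
  change qpre g x y (C (C b)) = g b
  rw [qpre, aevalTower_C]
  change aevalTower g x (C b) = g b
  rw [aevalTower_C]

lemma qlift_x (g : B →ₐ[R] S) (x y : Fin K → S) (h : ∑ l, x l * y l = 1) (l : Fin K) :
    qlift g x y h (qx B l) = x l := by
  change qpre g x y (C (X l)) = x l
  rw [qpre, aevalTower_C]
  change aevalTower g x (X l) = x l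
  rw [aevalTower_X]

lemma qlift_y (g : B →ₐ[R] S) (x y : Fin K → S) (h : ∑ l, x l * y l = 1) (l : Fin K) :
    qlift g x y h (qy B l) = y l := by
  change qpre g x y (X l) = y l
  rw [qpre, aevalTower_X]

lemma q_ext {g g' : QR B K →ₐ[R] S} (hb : ∀ b, g (qb R B K b) = g' (qb R B K b))
    (hx : ∀ l, g (qx B l) = g' (qx B l)) (hy : ∀ l, g (qy B l) = g' (qy B l)) : g = g' := by
  apply Ideal.Quotient.algHom_ext
  apply AlgHom.coe_ringHom_injective
  apply MvPolynomial.ringHom_ext
  · intro b
    induction b using MvPolynomial.induction_on with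
    | C b => exact hb b
    | add p q hp hq =>
      rw [map_add, map_add, map_add]
      exact congrArg₂ (· + ·) hp hq
    | mul_X p l hp =>
      rw [map_mul, map_mul, map_mul]
      exact congrArg₂ (· * ·) hp (hx l)
  · intro l
    exact hy l

end

section

variable {R V W : Type} [CommRing R] (f : W → MvPolynomial V R)
  {S : Type} [CommRing S] [Algebra R S]

/-- The universal property of the zero set. -/
noncomputable def zlift (x : V → S) (h : ∀ e, aeval x (f e) = 0) : ZeroRing f →ₐ[R] S :=
  Ideal.Quotient.liftₐ _ (aeval x) (by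
    intro p hp
    have h1 : Ideal.span (Set.range f) ≤ RingHom.ker (aeval x : MvPolynomial V R →ₐ[R] S) := by
      rw [Ideal.span_le]
      rintro _ ⟨e, rfl⟩
      exact h e
    exact h1 hp)

/-- The coordinates of the zero set. -/
noncomputable def zx (v : V) : ZeroRing f := Ideal.Quotient.mk _ (X v)

lemma zlift_x (x : V → S) (h : ∀ e, aeval x (f e) = 0) (v : V) :
    zlift f x h (zx f v) = x v := by
  change aeval x (X v) = x v
  rw [aeval_X]

variable {f}

lemma z_ext {g g' : ZeroRing f →ₐ[R] S} (h : ∀ v, g (zx f v) = g' (zx f v)) : g = g' := by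
  apply Ideal.Quotient.algHom_ext
  apply MvPolynomial.algHom_ext
  exact h

lemma aeval_zx (g : ZeroRing f →ₐ[R] S) (e : W) : aeval (fun v => g (zx f v)) (f e) = 0 := by
  have h : (aeval (fun v => g (zx f v)) : MvPolynomial V R →ₐ[R] S) =
      g.comp (Ideal.Quotient.mkₐ R _) := by
    apply MvPolynomial.algHom_ext
    intro v
    rw [aeval_X]
    rfl
  rw [h]
  change g (Ideal.Quotient.mk (Ideal.span (Set.range f)) (f e)) = 0
  have h2 : Ideal.Quotient.mk (Ideal.span (Set.range f)) (f e) = 0 :=
    Ideal.Quotient.eq_zero_iff_mem.2 (Ideal.subset_span ⟨e, rfl⟩)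
  rw [h2, map_zero]

lemma aeval_zx' (e : W) : aeval (fun v => zx f v) (f e) = 0 :=
  aeval_zx (AlgHom.id R (ZeroRing f)) e

end

end Pool.Agent.H504.BC
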