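import Pool.Agent.H504.BC.Cen

/-!
# One sequence and one index

For properties which pass to the open and closed subschemes, one statement for each member of one
sequence of hypersurfaces is sufficient.
-/

set_option autoImplicit false

open CategoryTheory AlgebraicGeometry MvPolynomial Pool.Agent.Y116.UV Pool.Agent.Z125.UN
  Pool.Agent.Q193.LT Pool.Agent.H854.SQ Pool.Agent.H367.OS

namespace Pool.Agent.H504.BC

section prod

variable (k : Type) [Field k] (A B : Type) [CommRing A] [CommRing B] [Algebra k A] [Algebra k B]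

/-- The spectrum of a product is a disjoint union. -/
lemma triple_prod :
    IsTriple (affMap (AlgHom.fst k A B)) (affMap (AlgHom.snd k A B)) ∧
      IsOpenImmersion (affMap (AlgHom.fst k A B)).left := by
  have h1 : Function.Surjective (AlgHom.fst k A B) := fun a => ⟨(a, 0), rfl⟩
  have h2 : Function.Surjective (AlgHom.snd k A B) := fun b => ⟨(0, b), rfl⟩
  refine ⟨⟨closed_affMap _ h1, ?_, ?_⟩, ?_⟩
  · refine (isOpenImmersion_SpecMap_iff_of_surjective _ h2).2 ⟨((1, 0) : A × B), ?_, ?_⟩
    · change ((1, 0) : A × B) * (1, 0) = (1, 0)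
      simp
    · ext x
      rw [Ideal.mem_span_singleton']
      constructor
      · intro h
        have h3 : x.2 = 0 := h
        refine ⟨x, ?_⟩
        ext <;> simp [h3]
      · rintro ⟨a, rfl⟩
        change (a * (1, 0)).2 = 0
        simp
  · rw [range_affMap _ h1, range_affMap _ h2]
    ext x
    have ha : x ∈ {x : PrimeSpectrum (A × B) | ∀ a, AlgHom.fst k A B a = 0 → a ∈ x.asIdeal} ↔
        ((0, 1) : A × B) ∈ x.asIdeal := by
      constructor
      · intro h
        exact h (0, 1) rfl
      · intro h a ha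
        have h3 : a = a * (0, 1) := by
          have h4 : a.1 = 0 := ha
          ext <;> simp [h4]
        rw [h3]
        exact Ideal.mul_mem_left _ _ h
    have hb : x ∈ {x : PrimeSpectrum (A × B) | ∀ a, AlgHom.snd k A B a = 0 → a ∈ x.asIdeal} ↔
        ((1, 0) : A × B) ∈ x.asIdeal := by
      constructor
      · intro h
        exact h (1, 0) rfl
      · intro h a ha
        have h3 : a = a * (1, 0) := by
          have h4 : a.2 = 0 := ha
          ext <;> simp [h4]
        rw [h3]
        exact Ideal.mul_mem_left _ _ h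
    refine ha.trans (Iff.trans ?_ (not_congr hb).symm)
    constructor
    · intro h h'
      refine x.isPrime.ne_top ((Ideal.eq_top_iff_one _).2 ?_)
      have h3 := Ideal.add_mem _ h h'
      have h4 : ((0, 1) : A × B) + (1, 0) = 1 := by ext <;> simp
      rwa [h4] at h3
    · intro h
      have h1 : ((0, 1) : A × B) * (1, 0) ∈ x.asIdeal := by
        have h2 : ((0, 1) : A × B) * (1, 0) = 0 := by ext <;> simp
        rw [h2]
        exact Ideal.zero_mem _
      exact (x.isPrime.mem_or_mem h1).resolve_right h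
  · refine (isOpenImmersion_SpecMap_iff_of_surjective _ h1).2 ⟨((0, 1) : A × B), ?_, ?_⟩
    · change ((0, 1) : A × B) * (0, 1) = (0, 1)
      simp
    · ext x
      rw [Ideal.mem_span_singleton']
      constructor
      · intro h
        have h3 : x.1 = 0 := h
        refine ⟨x, ?_⟩
        ext <;> simp [h3]
      · rintro ⟨a, rfl⟩
        change (a * (0, 1)).1 = 0
        simp

/-- The two factors. -/
lemma triple_prod' :
    IsTriple (affMap (AlgHom.snd k A B)) (affMap (AlgHom.fst k A B)) ∧
      IsOpenImmersion (affMap (AlgHom.snd k A B)).left := by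
  obtain ⟨h1, h2⟩ := triple_prod k A B
  have h3 : Function.Surjective (AlgHom.snd k A B) := fun b => ⟨(0, b), rfl⟩
  refine ⟨⟨closed_affMap _ h3, h2, ?_⟩, h1.opened⟩
  rw [h1.compl, compl_compl]

end prod

/-- The properties pass to the open and closed subschemes. -/
def Factors {k : Type} [Field k] (P : ℤ → Sch k → Prop) : Prop :=
  ∀ {Z X U : Sch k} (i : Z ⟶ X) (j : U ⟶ X), FT True X → IsTriple i j →
    IsOpenImmersion i.left → ∀ q, P q X → P q Z

section

variable {k : Type} [Field k] {P : ℤ → Sch k → Prop}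

lemma prod_iff (hP : Lined P) (hF : Factors P) (A B : Type) [CommRing A] [CommRing B]
    [Algebra k A] [Algebra k B] [Algebra.FiniteType k A] [Algebra.FiniteType k B] (q : ℤ) :
    P q (aff k (A × B)) ↔ P q (aff k A) ∧ P q (aff k B) := by
  obtain ⟨h1, h2⟩ := triple_prod k A B
  obtain ⟨h3, h4⟩ := triple_prod' k A B
  exact ⟨fun h => ⟨hF _ _ (ft_aff True) h1 h2 q h, hF _ _ (ft_aff True) h3 h4 q h⟩,
    fun h => hP.total _ _ (ft_aff True) h1 q h.1 h.2⟩

variable (k) in
/-- A statement on families of properties which is equivalent to one property of one affine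
scheme. -/
def Coded (S : (ℤ → Sch k → Prop) → Prop) : Prop :=
  ∃ (B : Type) (_ : CommRing B) (_ : Algebra k B) (_ : Algebra.FiniteType k B) (Q : ℤ),
    ∀ P : ℤ → Sch k → Prop, Lined P → Factors P → (P Q (aff k B) ↔ S P)

lemma Coded.and {S T : (ℤ → Sch k → Prop) → Prop} (hS : Coded k S) (hT : Coded k T) :
    Coded k fun P => S P ∧ T P := by
  obtain ⟨A, _, _, _, q, hA⟩ := hS
  obtain ⟨B, _, _, _, r, hB⟩ := hT
  let a := (r - q).toNat
  let b := (q - r).toNat
  have h1 : Algebra.FiniteType k (MvPolynomial (Fin a) A) :=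
    Algebra.FiniteType.trans (S := A) inferInstance inferInstance
  have h2 : Algebra.FiniteType k (MvPolynomial (Fin b) B) :=
    Algebra.FiniteType.trans (S := B) inferInstance inferInstance
  refine ⟨MvPolynomial (Fin a) A × MvPolynomial (Fin b) B, inferInstance, inferInstance,
    inferInstance, max q r, fun P hP hF => ?_⟩
  rw [prod_iff hP hF, hP.poly, hP.poly, Nat.card_eq_fintype_card, Nat.card_eq_fintype_card,
    Fintype.card_fin, Fintype.card_fin]
  have h3 : max q r - (a : ℤ) = q := by omega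
  have h4 : max q r - (b : ℤ) = r := by omega
  rw [h3, h4, hA P hP hF, hB P hP hF]

lemma Coded.true : Coded k fun _ => True :=
  ⟨k, inferInstance, inferInstance, inferInstance, 0, fun _ hP _ => iff_true_intro (hP.point 0)⟩

lemma Coded.atom (B : Type) [CommRing B] [Algebra k B] [hB : Algebra.FiniteType k B] (q : ℤ) :
    Coded k fun P => P q (aff k B) :=
  ⟨B, inferInstance, inferInstance, hB, q, fun _ _ _ => Iff.rfl⟩

lemma Coded.congr {S T : (ℤ → Sch k → Prop) → Prop} (hS : Coded k S)
    (h : ∀ P, S P ↔ T P) : Coded k T := by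
  obtain ⟨A, _, _, _, q, hA⟩ := hS
  exact ⟨A, inferInstance, inferInstance, inferInstance, q, fun P hP hF =>
    (hA P hP hF).trans (h P)⟩

lemma Coded.forall_finset {ι : Type} (S : ι → (ℤ → Sch k → Prop) → Prop)
    (hS : ∀ i, Coded k (S i)) (F : Finset ι) : Coded k fun P => ∀ i ∈ F, S i P := by
  classical
  induction F using Finset.induction_on with
  | empty => exact Coded.true.congr fun P => by simp
  | insert i F _ ih => exact ((hS i).and ih).congr fun P => by simp

/-- All schemes given by relations between `m` variables, and all indices `0 ≤ q ≤ m`. -/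
def UpTo (m : ℕ) (P : ℤ → Sch k → Prop) : Prop :=
  ∀ x ∈ (Finset.univ : Finset (Finset (Rel (Fin m)) × Fin (m + 1))),
    P ((x.2 : ℕ) : ℤ) (aff k (Pool.Agent.H367.OS.Sys k x.1))

lemma coded_upTo (m : ℕ) : Coded k (UpTo (k := k) m) := by
  have h1 : ∀ x : Finset (Rel (Fin m)) × Fin (m + 1), Coded k fun P : ℤ → Sch k → Prop =>
      P ((x.2 : ℕ) : ℤ) (aff k (Pool.Agent.H367.OS.Sys k x.1)) := by
    intro x
    have h2 : Algebra.FiniteType k (Pool.Agent.H367.OS.Sys k x.1) := inferInstance
    exact Coded.atom (hB := h2) (Pool.Agent.H367.OS.Sys k x.1) ((x.2 : ℕ) : ℤ)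
  exact Coded.forall_finset _ h1 Finset.univ

/-- For a given scheme and a given index all large `m` are sufficient. -/
lemma of_upTo (hk : IsPrimeField k) (X : Sch k) (hX : FT True X) (q : ℤ) :
    ∃ m₀ : ℕ, ∀ m, m₀ ≤ m → ∀ P : ℤ → Sch k → Prop, Lined P → UpTo m P → P q X := by
  classical
  refine of_affine' (sep := True) (P := fun X => ∃ m₀ : ℕ, ∀ m, m₀ ≤ m →
    ∀ P : ℤ → Sch k → Prop, Lined P → UpTo m P → P q X) ?_ ?_ (fun B _ _ _ => ?_) X hX
  · rintro X Y hX e ⟨m₀, h⟩
    exact ⟨m₀, fun m hm P hP h1 => hP.iso hX e q (h m hm P hP h1)⟩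
  · rintro Z X U i j hX ht ⟨m₀, h⟩ ⟨m₁, h'⟩
    exact ⟨max m₀ m₁, fun m hm P hP h1 => hP.total i j hX ht q
      (h m ((le_max_left _ _).trans hm) P hP h1) (h' m ((le_max_right _ _).trans hm) P hP h1)⟩
  · obtain ⟨m₀, hm⟩ := exists_fin (B := B) hk
    refine ⟨max m₀ q.toNat, fun m hm1 P hP h => ?_⟩
    rcases lt_or_ge q 0 with hq | hq
    · exact hP.low B q hq
    obtain ⟨b, hb, hp⟩ := hm m ((le_max_left _ _).trans hm1)
    let s : Finset (Rel (Fin m)) := Finset.univ.filter (· ∈ holds k b)
    have h1 : Ideal.span (relPoly k '' (s : Set (Rel (Fin m)))) =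
        RingHom.ker (aeval b : MvPolynomial (Fin m) k →ₐ[k] B) := by
      have h2 : (s : Set (Rel (Fin m))) = holds k b := by
        ext r
        simp [s]
      rw [h2]
      exact le_antisymm (fun f hf => span_le_of_holds b hf) fun f hf => hp f hf
    let e : Pool.Agent.H367.OS.Sys k s ≃ₐ[k] B := (Ideal.quotientEquivAlgOfEq k h1).trans
      (Ideal.quotientKerAlgEquivOfSurjective hb)
    have hqm : q.toNat < m + 1 := by omega
    have h2 := h (s, ⟨q.toNat, hqm⟩) (Finset.mem_univ _)
    have h3 : ((q.toNat : ℕ) : ℤ) = q := Int.toNat_of_nonneg hq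
    simp only [h3] at h2
    exact hP.iso_alg e h2

end

/-- A hypersurface `F_s = 1`, and an index. -/
structure Hyp where
  /-- the number of variables -/
  n : ℕ
  /-- the relations -/
  s : Finset (Rel (Fin n))
  /-- the index -/
  c : ℕ

/-- **One sequence, one index.** For every `δ` there is a sequence of hypersurfaces `F_s = 1`, with indices
`c` such that the dimension is `2 c + 1 + δ`, such that for all families `P` with the property `Factors`:
for every scheme and every index, the property with the index `c` of one member of the sequence is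
sufficient, for all large members. -/
theorem one_sequence (k : Type) [Field k] (hk : IsPrimeField k) (δ : ℤ) :
    ∃ v : ℕ → Hyp, (∀ m, (v m).s.Nonempty ∧ ((v m).s.card + (v m).n : ℤ) = 2 * (v m).c + 2 + δ ∧
      m ≤ (v m).c) ∧
      ∀ (X : Sch k), FT True X → ∀ q : ℤ, ∃ m₀ : ℕ, ∀ m, m₀ ≤ m → ∀ P : ℤ → Sch k → Prop,
        Lined P → Factors P → P (v m).c (relHyp k (v m).s) → P q X := by
  have h : ∀ m : ℕ, ∃ w : Hyp, (w.s.Nonempty ∧ (w.s.card + w.n : ℤ) = 2 * w.c + 2 + δ ∧ m ≤ w.c) ∧
      ∀ P : ℤ → Sch k → Prop, Lined P → Factors P → (P w.c (relHyp k w.s) ↔ UpTo m P) := by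
    intro m
    obtain ⟨B, _, _, hB, Q, h1⟩ := coded_upTo (k := k) m
    obtain ⟨c₀, h2⟩ := central hk B δ Q
    obtain ⟨n, s, hs, hn, h3⟩ := h2 (max c₀ m) (le_max_left _ _)
    exact ⟨⟨n, s, max c₀ m⟩, ⟨hs, hn, le_max_right _ _⟩, fun P hP hF =>
      (h3 P hP).trans (h1 P hP hF)⟩
  choose v hv h1 using h
  refine ⟨v, hv, fun X hX q => ?_⟩
  obtain ⟨m₀, h2⟩ := of_upTo hk X hX q
  exact ⟨m₀, fun m hm P hP hF h3 => h2 m hm P hP ((h1 m P hP hF).mp h3)⟩

/-- The equivalences. -/
theorem one_tfae {k : Type} [Field k] (hH : Hironaka k) {v : ℕ → Hyp}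
    (hv : ∀ (X : Sch k), FT True X → ∀ q : ℤ, ∃ m₀ : ℕ, ∀ m, m₀ ≤ m → ∀ P : ℤ → Sch k → Prop,
        Lined P → Factors P → P (v m).c (relHyp k (v m).s) → P q X)
    {P : ℤ → Sch k → Prop} (hP : Lined P) (hF : Factors P) :
    List.TFAE [∃ᶠ m in Filter.atTop, P (v m).c (relHyp k (v m).s),
      ∀ m, P (v m).c (relHyp k (v m).s),
      ∀ Y : Sch k, SmoothProj Y → ∀ q, P q Y,
      ∀ X : Sch k, FT True X → ∀ q, P q X] := by
  tfae_have 1 → 4 := fun h X hX q => by
    obtain ⟨m₀, h1⟩ := hv X hX q
    obtain ⟨m, hm, h2⟩ := (Filter.frequently_atTop.1 h) m₀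
    exact h1 m hm P hP hF h2
  tfae_have 4 → 2 := fun h m => by
    have hV2 : Algebra.FiniteType k (MvPolynomial ((v m).s ⊕ Fin (v m).n) k) := ftMv k _
    have h6 : Algebra.FiniteType k
        (MvPolynomial ((v m).s ⊕ Fin (v m).n) k ⧸ Ideal.span {relCub k (v m).s - 1}) :=
      Algebra.FiniteType.trans (S := MvPolynomial ((v m).s ⊕ Fin (v m).n) k) hV2 inferInstance
    exact h _ (ft_aff True) _
  tfae_have 2 → 1 := fun h => (Filter.Eventually.of_forall h).frequently
  tfae_have 4 → 3 := fun h Y hY q => h Y hY.ft q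
  tfae_have 3 → 4 := fun h X hX q => hP.of_smoothProj hH q (fun Y hY => h Y hY q) X hX
  tfae_finish

end Pool.Agent.H504.BC
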