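import Pool.Agent.H367.OS.GDeg

/-!
# Cubic hypersurfaces and their central index
-/

set_option autoImplicit false

open CategoryTheory AlgebraicGeometry MvPolynomial Pool.Agent.Y116.UV Pool.Agent.Z125.UN
  Pool.Agent.Q193.LT Pool.Agent.H854.SQ Pool.Agent.H367.OS

namespace Pool.Agent.H504.BC

/-- A family of properties `P q`, `q ∈ ℤ`, of the separated schemes of finite type over the field `k`.
Each `P q` is invariant under isomorphisms and has the two-out-of-three property for a closed subscheme
and its open complement; for the affine bundle `Spec B[w_1, …, w_m] / (∑ f_l w_l - 1) → U` with fibre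
`𝔸^{m-1}`, where `U` is the complement of `f = 0` in `Spec B`, the property `P q` of the total space is
the property `P (q - (m - 1))` of `U`; `P q` is true for the point, and it is true for affine schemes if
`q < 0`. -/
structure Lined {k : Type} [Field k] (P : ℤ → Sch k → Prop) : Prop where
  iso : ∀ {X Y : Sch k}, FT True X → Nonempty (X ≅ Y) → ∀ q, P q X → P q Y
  total : ∀ {Z X U : Sch k} (i : Z ⟶ X) (j : U ⟶ X), FT True X → IsTriple i j →
    ∀ q, P q Z → P q U → P q X
  opened : ∀ {Z X U : Sch k} (i : Z ⟶ X) (j : U ⟶ X), FT True X → IsTriple i j →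
    ∀ q, P q Z → P q X → P q U
  closed : ∀ {Z X U : Sch k} (i : Z ⟶ X) (j : U ⟶ X), FT True X → IsTriple i j →
    ∀ q, P q X → P q U → P q Z
  bundle : ∀ (B : Type) [CommRing B] [Algebra k B] [Algebra.FiniteType k B] (m : ℕ)
    (f : Fin m → B) (U : Sch k) (j : U ⟶ aff k B), IsOpenImmersion j.left →
    Set.range j.left = {x : PrimeSpectrum B | ∃ l, f l ∉ x.asIdeal} →
    ∀ q, P q (aff k (Jou f)) ↔ P (q + (1 - m)) U
  point : ∀ q, P q (aff k k)
  low : ∀ (B : Type) [CommRing B] [Algebra k B] [Algebra.FiniteType k B] (q : ℤ), q < 0 →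
    P q (aff k B)

/-- From the graduated families. -/
lemma lined_of_graduated {k : Type} [Field k] {P : ℤ → Sch k → Prop} (hP : Graduated P) :
    Lined P where
  iso := hP.iso
  total := hP.total
  opened := hP.opened
  closed := hP.closed
  bundle := hP.bundle
  point := hP.point
  low := hP.low

section

variable {k : Type} [Field k] {P : ℤ → Sch k → Prop} (hP : Lined P)

include hP

lemma Lined.iso_alg {A B : Type} [CommRing A] [CommRing B] [Algebra k A] [Algebra k B]
    [Algebra.FiniteType k A] (e : A ≃ₐ[k] B) {q : ℤ} (h : P q (aff k A)) : P q (aff k B) :=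
  hP.iso (ft_aff True) ⟨(affIso e).symm⟩ q h

/-- Products with affine spaces. -/
lemma Lined.poly_fin (B : Type) [CommRing B] [Algebra k B] [Algebra.FiniteType k B] (n : ℕ)
    (q : ℤ) : P q (aff k (MvPolynomial (Fin n) B)) ↔ P (q - n) (aff k B) := by
  have h1 : IsOpenImmersion (𝟙 (aff k B) : aff k B ⟶ aff k B).left :=
    inferInstanceAs (IsOpenImmersion (𝟙 (aff k B).left))
  have h2 : Set.range (𝟙 (aff k B) : aff k B ⟶ aff k B).left =
      {x : PrimeSpectrum B | ∃ l, f1 B n l ∉ x.asIdeal} := by
    have h1 : Set.range (𝟙 (aff k B) : aff k B ⟶ aff k B).left = Set.univ := Set.range_id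
    have h2 : {x : PrimeSpectrum B | ∃ l, f1 B n l ∉ x.asIdeal} = Set.univ := by
      rw [Set.eq_univ_iff_forall]
      intro x
      exact ⟨0, fun h => x.isPrime.ne_top ((Ideal.eq_top_iff_one _).mpr h)⟩
    exact h1.trans h2.symm
  have h3 := hP.bundle B (n + 1) (f1 B n) (aff k B) (𝟙 _) h1 h2 q
  have h4 : q + (1 - ((n + 1 : ℕ) : ℤ)) = q - n := by push_cast; ring
  rw [h4] at h3
  rw [← h3]
  have : Algebra.FiniteType k (Jou (f1 B n)) :=
    Algebra.FiniteType.trans (S := B) inferInstance inferInstance
  have : Algebra.FiniteType k (MvPolynomial (Fin n) B) :=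
    Algebra.FiniteType.trans (S := B) inferInstance inferInstance
  exact ⟨hP.iso_alg ((jouOne B n).restrictScalars k).symm,
    hP.iso_alg ((jouOne B n).restrictScalars k)⟩

lemma Lined.poly (B : Type) [CommRing B] [Algebra k B] [Algebra.FiniteType k B] (τ : Type)
    [Finite τ] (q : ℤ) : P q (aff k (MvPolynomial τ B)) ↔ P (q - Nat.card τ) (aff k B) := by
  have := Fintype.ofFinite τ
  rw [Nat.card_eq_fintype_card, ← hP.poly_fin B (Fintype.card τ) q]
  have : Algebra.FiniteType k (MvPolynomial τ B) :=
    Algebra.FiniteType.trans (S := B) inferInstance inferInstance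
  have : Algebra.FiniteType k (MvPolynomial (Fin (Fintype.card τ)) B) :=
    Algebra.FiniteType.trans (S := B) inferInstance inferInstance
  exact ⟨hP.iso_alg ((renameEquiv B (Fintype.equivFin τ)).restrictScalars k),
    hP.iso_alg ((renameEquiv B (Fintype.equivFin τ).symm).restrictScalars k)⟩

/-- By Hironaka's theorem, the smooth projective schemes are sufficient. -/
lemma Lined.of_smoothProj (hH : Hironaka k) (q : ℤ) (h : ∀ Y : Sch k, SmoothProj Y → P q Y)
    (X : Sch k) (hX : FT True X) : P q X := by
  have htwo : TwoOfThree (fun X : Sch k => P q X) :=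
    { iso := fun h e h1 => hP.iso h e q h1
      total := fun i j h ht h1 h2 => hP.total i j h ht q h1 h2
      opened := fun i j h ht h1 h2 => hP.opened i j h ht q h1 h2
      closed := fun i j h ht h1 h2 => hP.closed i j h ht q h1 h2 }
  have haff : ∀ (B : Type) [CommRing B] [Algebra k B] [Algebra.FiniteType k B],
      P q (aff k B) := by
    intro B _ _ _
    obtain ⟨n, f, hf⟩ := Algebra.FiniteType.iff_quotient_mvPolynomial''.1
      (inferInstance : Algebra.FiniteType k B)
    have h1 : topologicalKrullDim (aff k B).left ≤ (n : ℕ) := by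
      have h2 : topologicalKrullDim (aff k B).left = ringKrullDim B :=
        PrimeSpectrum.topologicalKrullDim_eq_ringKrullDim _
      rw [h2]
      refine (ringKrullDim_le_of_surjective f.toRingHom hf).trans ?_
      rw [MvPolynomial.ringKrullDim_of_isNoetherianRing, ringKrullDim_eq_zero_of_field]
      simp
    exact hH n _ htwo (fun Y hY _ => h Y hY) _ (ft_aff True) h1
  exact of_affine' (sep := True) (P := fun X => P q X) (fun hX e => hP.iso hX e q)
    (fun i j hX ht h1 h2 => hP.total i j hX ht q h1 h2) (fun B _ _ _ => haff B) X hX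

end

/-- The polynomial `∑ t_e f_e`. -/
noncomputable def cubPoly {R : Type} [CommRing R] {V : Type} {E : ℕ}
    (f : Fin E → MvPolynomial V R) : MvPolynomial (Fin E ⊕ V) R :=
  ∑ e, X (Sum.inl e) * rename Sum.inr (f e)

/-- The ring of the hypersurface `∑ t_e f_e = 1`. -/
abbrev CubRing {R : Type} [CommRing R] {V : Type} {E : ℕ} (f : Fin E → MvPolynomial V R) : Type :=
  MvPolynomial (Fin E ⊕ V) R ⧸ Ideal.span {cubPoly f - 1}

/-- The ring of the zero set. -/
abbrev ZeroRing {R : Type} [CommRing R] {V W : Type} (f : W → MvPolynomial V R) : Type :=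
  MvPolynomial V R ⧸ Ideal.span (Set.range f)

lemma ftMv (R τ : Type) [CommRing R] [Finite τ] : Algebra.FiniteType R (MvPolynomial τ R) :=
  inferInstance

section

variable {R : Type} [CommRing R] {V : Type} {E : ℕ} (f : Fin E → MvPolynomial V R)

lemma sum_inr (p : MvPolynomial V R) :
    sumAlgEquiv R (Fin E) V (rename Sum.inr p) = C p := by
  have h : ((sumAlgEquiv R (Fin E) V : MvPolynomial (Fin E ⊕ V) R →ₐ[R] _).comp
      (rename Sum.inr) : MvPolynomial V R →ₐ[R] _) = IsScalarTower.toAlgHom R (MvPolynomial V R)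
        (MvPolynomial (Fin E) (MvPolynomial V R)) := by
    apply MvPolynomial.algHom_ext
    intro v
    change sumAlgEquiv R _ _ (rename Sum.inr (X v)) = C (X v)
    rw [rename_X]
    simp
  exact DFunLike.congr_fun h p

lemma sum_cubPoly : sumAlgEquiv R (Fin E) V (cubPoly f - 1) = ∑ l, C (f l) * X l - 1 := by
  rw [map_sub, map_one, cubPoly, map_sum]
  congr 1
  refine Finset.sum_congr rfl fun e _ => ?_
  rw [map_mul, sum_inr, mul_comm]
  congr 1
  simp

/-- The hypersurface is the affine bundle of Jouanolou over the complement of the zero set. -/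
noncomputable def cubEquiv : CubRing f ≃ₐ[R] Jou f :=
  Ideal.quotientEquivAlg _ _ (sumAlgEquiv R (Fin E) V) (by
    rw [Ideal.map_span, Set.image_singleton]
    congr 2
    exact (sum_cubPoly f).symm)

end

section

variable {k : Type} [Field k] {P : ℤ → Sch k → Prop} (hP : Lined P)

include hP

/-- From the zero set of the equations to the hypersurface and back, index by index. -/
lemma zero_iff {V : Type} [Finite V] {E : ℕ} (f : Fin E → MvPolynomial V k) (q : ℤ) :
    P (q + (E - 1)) (aff k (CubRing f)) ↔ P q (aff k (ZeroRing f)) := by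
  let A := MvPolynomial V k
  have h0 : P q (aff k A) := by
    rw [hP.poly]
    exact hP.point _
  have hA : Algebra.FiniteType k A := ftMv k V
  have hC : Algebra.FiniteType k (CubRing f) :=
    Algebra.FiniteType.trans (S := MvPolynomial (Fin E ⊕ V) k) (ftMv k _) inferInstance
  have h2 : P (q + (E - 1)) (aff k (CubRing f)) ↔ P q (opn (aff k A) (neOpen k f)) := by
    have h3 := hP.bundle A _ f (opn (aff k A) (neOpen k f)) (opnMap (aff k A) (neOpen k f))
      inferInstance (range_opnMap _ _) (q + (E - 1))
    have h4 : q + ((E : ℤ) - 1) + (1 - (E : ℕ)) = q := by ring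
    rw [h4] at h3
    have h5 : Algebra.FiniteType k (Jou f) :=
      Algebra.FiniteType.trans (S := A) inferInstance inferInstance
    exact ⟨fun h => h3.mp (hP.iso_alg (cubEquiv f) h),
      fun h => hP.iso_alg (cubEquiv f).symm (h3.mpr h)⟩
  rw [h2]
  have ht : IsTriple (affMap (Ideal.Quotient.mkₐ k (Ideal.span (Set.range f))))
      (opnMap (aff k A) (neOpen k f)) := by
    refine ⟨closed_affMap _ (Ideal.Quotient.mkₐ_surjective k _), inferInstance, ?_⟩
    rw [range_affMap _ (Ideal.Quotient.mkₐ_surjective k _), range_opnMap]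
    ext x
    change (∀ a, Ideal.Quotient.mk (Ideal.span (Set.range f)) a = 0 → a ∈ x.asIdeal) ↔
      ¬ ∃ l, f l ∉ x.asIdeal
    push Not
    constructor
    · intro h l
      exact h (f l) (Ideal.Quotient.eq_zero_iff_mem.mpr (Ideal.subset_span ⟨l, rfl⟩))
    · intro h a ha
      rw [Ideal.Quotient.eq_zero_iff_mem] at ha
      refine (Ideal.span_le.mpr ?_ : Ideal.span (Set.range f) ≤ x.asIdeal) ha
      rintro _ ⟨l, rfl⟩
      exact h l
  exact ⟨fun h => hP.closed _ _ (ft_aff True) ht q h0 h,
    fun h => hP.opened _ _ (ft_aff True) ht q h h0⟩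

/-- The product with the quadric `∑ x_l y_l = 1` in `2 K` variables. -/
lemma quad_iff (B : Type) [CommRing B] [Algebra k B] [Algebra.FiniteType k B] (K : ℕ) (q : ℤ)
    (hq : q < K) :
    P (q + (K - 1)) (aff k (Jou (fun l : Fin K => (X l : MvPolynomial (Fin K) B)))) ↔
      P q (aff k B) := by
  let A := MvPolynomial (Fin K) B
  let f : Fin K → A := fun l => X l
  have hA : Algebra.FiniteType k A := Algebra.FiniteType.trans (S := B) inferInstance inferInstance
  have h0 : P q (aff k A) := by
    rw [hP.poly]
    refine hP.low _ _ ?_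
    rw [Nat.card_eq_fintype_card, Fintype.card_fin]
    omega
  have h2 : P (q + (K - 1)) (aff k (Jou f)) ↔ P q (opn (aff k A) (neOpen k f)) := by
    have h3 := hP.bundle A _ f (opn (aff k A) (neOpen k f)) (opnMap (aff k A) (neOpen k f))
      inferInstance (range_opnMap _ _) (q + (K - 1))
    have h4 : q + ((K : ℤ) - 1) + (1 - (K : ℕ)) = q := by ring
    rwa [h4] at h3
  rw [h2]
  let ε : A →ₐ[k] B := aevalTower (AlgHom.id k B) (fun _ => 0)
  have hε : Function.Surjective ε := fun b => ⟨C b, by
    change aevalTower (AlgHom.id k B) (fun _ => 0) (C b) = b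
    rw [aevalTower_C]
    rfl⟩
  have ht : IsTriple (affMap ε) (opnMap (aff k A) (neOpen k f)) := by
    refine ⟨closed_affMap _ hε, inferInstance, ?_⟩
    rw [range_affMap _ hε, range_opnMap]
    ext x
    change (∀ a, ε a = 0 → a ∈ x.asIdeal) ↔ ¬ ∃ l, f l ∉ x.asIdeal
    push Not
    constructor
    · intro h l
      refine h (f l) ?_
      change aevalTower (AlgHom.id k B) (fun _ => 0) (X l) = 0
      rw [aevalTower_X]
    · intro h a ha
      have h1 : a ∈ Ideal.span (X '' (Set.univ : Set (Fin K)) : Set A) := by
        rw [mem_ideal_span_X_image]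
        intro m hm
        by_contra hcon
        push Not at hcon
        have hm0 : m = 0 := by
          ext i
          exact hcon i (Set.mem_univ _)
        rw [hm0, mem_support_iff] at hm
        apply hm
        have h5 : ε a = coeff 0 a := by
          change aevalTower (AlgHom.id k B) (fun _ => 0) a = coeff 0 a
          rw [← constantCoeff_eq]
          have h6 : ((aevalTower (AlgHom.id k B) (fun _ : Fin K => (0 : B)) : A →ₐ[k] B) : A →+* B) =
              constantCoeff := by
            apply MvPolynomial.ringHom_ext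
            · intro r
              simp
            · intro i
              simp
          exact DFunLike.congr_fun h6 a
        rw [← h5, ha]
      refine (Ideal.span_le.mpr ?_ : Ideal.span _ ≤ x.asIdeal) h1
      rintro _ ⟨l, _, rfl⟩
      exact h l
  exact ⟨fun h => hP.closed _ _ (ft_aff True) ht q h0 h,
    fun h => hP.opened _ _ (ft_aff True) ht q h h0⟩

end

end Pool.Agent.H504.BC
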