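import Pool.Agent.H504.BC.One
import Pool.Graph.R_pool_sql_team_seeded_2aa45f1a.Q193.LT.Cyc

/-!
# Regulators, volumes and the middle cohomology
-/

set_option autoImplicit false

open CategoryTheory CategoryTheory.Limits AlgebraicGeometry MvPolynomial Pool.Agent.Y116.UV
  Pool.Agent.Z125.UN Pool.Agent.Q193.LT Pool.Agent.H854.SQ Pool.Agent.H367.OS

universe w

namespace Pool.Agent.H504.BC

/-- Regulators and volumes, for separated schemes `X` of finite type over `ℚ`:

* for `a ∈ ℕ` and `n, j ∈ ℤ` real vector spaces `A^{a,n,j}(X)`, `B^{a,n,j}(X)` and a regulator map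
  `A^{a,n,j}(X) → B^{a,n,j}(X)` (`C a n` for fixed `a`, `n`);
* for `a ∈ ℕ` and `n ∈ ℤ` a class `vol a n X` in the group `G` (`ℝˣ / ℚˣ`). -/
structure RegData (G : Type) where
  /-- the regulators -/
  C : ℕ → ℤ → PairData.{w} ℚ ℤ ℝ
  /-- the volume divided by the value of the `L`-function -/
  vol : ℕ → ℤ → Sch ℚ → G

/-- The regulator maps of `D` for `X` are isomorphic to those of `D'` for `Y`. -/
def Same (D D' : PairData.{w} ℚ ℤ ℝ) (X Y : Sch ℚ) : Prop :=
  ∀ j, ∃ (e : D.A j X ≅ D'.A j Y) (e' : D.B j X ≅ D'.B j Y), e.hom ≫ D'.ρ j Y = D.ρ j X ≫ e'.hom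

lemma Same.bij {D D' : PairData.{w} ℚ ℤ ℝ} {X Y : Sch ℚ} (h : Same D D' X Y) :
    BijAll D X ↔ BijAll D' Y := by
  refine forall_congr' fun j => ?_
  obtain ⟨e, e', h⟩ := h j
  rw [bij_iff, bij_iff]
  constructor
  · intro h1
    have h2 : D'.ρ j Y = e.inv ≫ D.ρ j X ≫ e'.hom := by rw [← h, Iso.inv_hom_id_assoc]
    rw [h2]
    infer_instance
  · intro h1
    have h2 : D.ρ j X = e.hom ≫ D'.ρ j Y ≫ e'.inv := by
      rw [← Category.assoc, h, Category.assoc, Iso.hom_inv_id, Category.comp_id]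
    rw [h2]
    infer_instance

/-- The standard properties: invariance under isomorphisms; for a closed subscheme `Z` of `X` and its
complement `U` long exact sequences
`⋯ → A^{a,n,j}(U) → A^{a,n,j}(X) → A^{a,n,j}(Z) → A^{a,n,j+1}(U) → ⋯`, the same for `B`, compatible with
the regulators, and multiplicativity of the volumes if the regulators are isomorphisms; for an affine
bundle `E → U` of rank `r` (`r = m - 1` for the bundle `∑ f_l w_l = 1` over the complement of `f = 0`)
the objects of `E` with the index `n` are the objects of `U` with the index `n - r`; vanishing for `n < 0`;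
for an open and closed subscheme `Z` of `X` the regulators of `Z` are direct factors of those of `X`. -/
structure IsReg {G : Type} [CommGroup G] (D : RegData.{w} G) : Prop where
  iso : ∀ {X Y : Sch ℚ}, FT True X → Nonempty (X ≅ Y) → ∀ a n,
    Same (D.C a n) (D.C a n) X Y ∧ D.vol a n X = D.vol a n Y
  les : ∀ {Z X U : Sch ℚ} (i : Z ⟶ X) (j : U ⟶ X), FT True X → IsTriple i j → ∀ a n,
    LesPair (D.C a n) (Equiv.addRight 1) U X Z
  mul : ∀ {Z X U : Sch ℚ} (i : Z ⟶ X) (j : U ⟶ X), FT True X → IsTriple i j → ∀ a n,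
    BijAll (D.C a n) Z → BijAll (D.C a n) X → BijAll (D.C a n) U →
      D.vol a n X = D.vol a n Z * D.vol a n U
  bundle : ∀ (B : Type) [CommRing B] [Algebra ℚ B] [Algebra.FiniteType ℚ B] (m : ℕ)
    (f : Fin m → B) (U : Sch ℚ) (j : U ⟶ aff ℚ B), IsOpenImmersion j.left →
    Set.range j.left = {x : PrimeSpectrum B | ∃ l, f l ∉ x.asIdeal} → ∀ a n,
      Same (D.C a n) (D.C a (n + (1 - m))) (aff ℚ (Jou f)) U ∧
        D.vol a n (aff ℚ (Jou f)) = D.vol a (n + (1 - m)) U
  low : ∀ (B : Type) [CommRing B] [Algebra ℚ B] [Algebra.FiniteType ℚ B] (a : ℕ) (n : ℤ), n < 0 →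
    (∀ j, Subsingleton ((D.C a n).A j (aff ℚ B)) ∧ Subsingleton ((D.C a n).B j (aff ℚ B))) ∧
      D.vol a n (aff ℚ B) = 1
  disjoint : ∀ {Z X U : Sch ℚ} (i : Z ⟶ X) (j : U ⟶ X), FT True X → IsTriple i j →
    IsOpenImmersion i.left → ∀ a n l, FactorAt (D.C a n) l Z l X

/-- The regulators with the index `(a, n)` are isomorphisms. -/
def RegIso {G : Type} (D : RegData.{w} G) (a : ℕ) (n : ℤ) (X : Sch ℚ) : Prop := BijAll (D.C a n) X

/-- The regulators with the index `(a, n)` are isomorphisms, and the volume is the value of the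
`L`-function up to rational factors. -/
def RegVol {G : Type} [CommGroup G] (D : RegData.{w} G) (a : ℕ) (n : ℤ) (X : Sch ℚ) : Prop :=
  BijAll (D.C a n) X ∧ D.vol a n X = 1

section

variable {G : Type} [CommGroup G] {D : RegData.{w} G} (hD : IsReg D)

include hD

lemma IsReg.bij_low (B : Type) [CommRing B] [Algebra ℚ B] [Algebra.FiniteType ℚ B] (a : ℕ)
    (n : ℤ) (hn : n < 0) : BijAll (D.C a n) (aff ℚ B) := fun j => by
  obtain ⟨h1, h2⟩ := (hD.low B a n hn).1 j
  exact ⟨fun x y _ => Subsingleton.elim x y, fun y => ⟨0, Subsingleton.elim _ _⟩⟩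

/-- The regulators, for fixed `a`. -/
theorem lined_regIso (a : ℕ) (point : ∀ n, RegIso D a n (aff ℚ ℚ)) : Lined (RegIso D a) where
  iso hX e n h := ((hD.iso hX e a n).1.bij).mp h
  total i j hX ht n hZ hU := (hD.les i j hX ht a n).mid hU hZ
  opened i j hX ht n hZ hX' := (hD.les i j hX ht a n).left hX' hZ
  closed i j hX ht n hX' hU := (hD.les i j hX ht a n).right hU hX'
  bundle B _ _ _ m f U j hj hr n := (hD.bundle B m f U j hj hr a n).1.bij
  point := point
  low B _ _ _ n hn := hD.bij_low B a n hn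

/-- The regulators of open and closed subschemes. -/
theorem factors_regIso (a : ℕ) : Factors (RegIso D a) := fun i j hX ht hi n h l =>
  (hD.disjoint i j hX ht hi a n l).bij (h l)

/-- The regulators and the volumes, for fixed `a`. -/
theorem lined_regVol (a : ℕ) (point : ∀ n, RegVol D a n (aff ℚ ℚ)) : Lined (RegVol D a) where
  iso hX e n h := ⟨((hD.iso hX e a n).1.bij).mp h.1, by rw [← (hD.iso hX e a n).2, h.2]⟩
  total i j hX ht n hZ hU := by
    have h1 := (hD.les i j hX ht a n).mid hU.1 hZ.1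
    refine ⟨h1, ?_⟩
    rw [hD.mul i j hX ht a n hZ.1 h1 hU.1, hZ.2, hU.2, mul_one]
  opened i j hX ht n hZ hX' := by
    have h1 := (hD.les i j hX ht a n).left hX'.1 hZ.1
    have h2 := hD.mul i j hX ht a n hZ.1 hX'.1 h1
    rw [hZ.2, hX'.2, one_mul] at h2
    exact ⟨h1, h2.symm⟩
  closed i j hX ht n hX' hU := by
    have h1 := (hD.les i j hX ht a n).right hU.1 hX'.1
    have h2 := hD.mul i j hX ht a n h1 hX'.1 hU.1
    rw [hU.2, hX'.2, mul_one] at h2
    exact ⟨h1, h2.symm⟩
  bundle B _ _ _ m f U j hj hr n := by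
    obtain ⟨h1, h2⟩ := hD.bundle B m f U j hj hr a n
    rw [RegVol, RegVol, h1.bij, h2]
  point := point
  low B _ _ _ n hn := ⟨hD.bij_low B a n hn, (hD.low B a n hn).2⟩

end

end Pool.Agent.H504.BC
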