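import Pool.Agent.H504.BC.Ext

/-!
# Systems of relations and one more quadric
-/

set_option autoImplicit false

open CategoryTheory AlgebraicGeometry MvPolynomial Pool.Agent.Y116.UV Pool.Agent.Z125.UN
  Pool.Agent.Q193.LT Pool.Agent.H854.SQ Pool.Agent.H367.OS

namespace Pool.Agent.H504.BC

section

variable {R : Type} [CommRing R] {V W : Type} {S : Type} [CommRing S] [Algebra R S]

lemma rename_rel {ι κ : Type} (f : ι → κ) (r : Rel ι) :
    rename f (relPoly R r) = relPoly R (r.map f) := by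
  rcases r with ⟨i, j, l⟩ | ⟨i, j, l⟩ | i <;> simp [relPoly, Rel.map]

/-- The ring of the common zeros of the relations `r w`. -/
abbrev ZR (R : Type) [CommRing R] {V W : Type} (r : W → Rel V) : Type :=
  ZeroRing fun w => relPoly R (r w)

lemma ev_mul (x : V → S) (i j l : V) :
    aeval x (relPoly R (.inl (i, j, l) : Rel V)) = x i * x j - x l := by
  simp [relPoly]

lemma ev_add (x : V → S) (i j l : V) :
    aeval x (relPoly R (.inr (.inl (i, j, l)) : Rel V)) = x i + x j - x l := by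
  simp [relPoly]

lemma ev_one (x : V → S) (i : V) :
    aeval x (relPoly R (.inr (.inr i) : Rel V)) = x i - 1 := by
  simp [relPoly]

lemma ev_map {V' : Type} (x : V' → S) (σ : V → V') (r : Rel V) :
    aeval x (relPoly R (r.map σ)) = aeval (fun v => x (σ v)) (relPoly R r) := by
  rw [← rename_rel, aeval_rename]
  rfl

end

/-- The variables `x_l`, `y_l`, `z_l` (`l < K`), `s_l` (`l ≤ K`) and the old ones. -/
abbrev QV (K : ℕ) (V : Type) : Type := ((Fin K ⊕ Fin K) ⊕ (Fin K ⊕ Fin (K + 1))) ⊕ V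

/-- The indices of the relations of the extended system. -/
abbrev QW (K : ℕ) (W : Type) : Type := ((Fin K ⊕ Fin K) ⊕ Bool) ⊕ W

/-- the variable `x_l` -/
abbrev vx {K : ℕ} {V : Type} (l : Fin K) : QV K V := .inl (.inl (.inl l))
/-- the variable `y_l` -/
abbrev vy {K : ℕ} {V : Type} (l : Fin K) : QV K V := .inl (.inl (.inr l))
/-- the variable `z_l` -/
abbrev vz {K : ℕ} {V : Type} (l : Fin K) : QV K V := .inl (.inr (.inl l))
/-- the variable `s_l` -/
abbrev vs {K : ℕ} {V : Type} (l : Fin (K + 1)) : QV K V := .inl (.inr (.inr l))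

/-- The relations `x_l y_l = z_l`, `s_l + z_l = s_{l+1}`, `s_0 + s_0 = s_0`, `s_K = 1` and the old
ones. -/
def qrel (K : ℕ) {V W : Type} (r : W → Rel V) : QW K W → Rel (QV K V)
  | .inl (.inl (.inl l)) => .inl (vx l, vy l, vz l)
  | .inl (.inl (.inr l)) => .inr (.inl (vs l.castSucc, vz l, vs l.succ))
  | .inl (.inr false) => .inr (.inl (vs 0, vs 0, vs 0))
  | .inl (.inr true) => .inr (.inr (vs (Fin.last K)))
  | .inr w => (r w).map Sum.inr

lemma map_injective {V V' : Type} {σ : V → V'} (hσ : Function.Injective σ) :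
    Function.Injective (Rel.map σ) := by
  rintro (⟨a, b, c⟩ | ⟨a, b, c⟩ | a) (⟨a', b', c'⟩ | ⟨a', b', c'⟩ | a') h <;>
    simp only [Rel.map, Sum.inl.injEq, Sum.inr.injEq, Prod.mk.injEq, reduceCtorEq] at h ⊢
  · exact ⟨hσ h.1, hσ h.2.1, hσ h.2.2⟩
  · exact ⟨hσ h.1, hσ h.2.1, hσ h.2.2⟩
  · exact hσ h

lemma qrel_injective (K : ℕ) {V W : Type} {r : W → Rel V} (hr : Function.Injective r) :
    Function.Injective (qrel K r) := by
  have h2 : ∀ (a : Rel V) (b : (Fin K ⊕ Fin K) ⊕ Bool), a.map Sum.inr ≠ qrel K r (.inl b) := by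
    rintro (⟨a, b, c⟩ | ⟨a, b, c⟩ | a) ((l | l) | (b | b)) h <;>
      simp [Rel.map, qrel] at h
  rintro (((l | l) | (_ | _)) | w) (((l' | l') | (_ | _)) | w') h
  all_goals first
    | (exact absurd h (h2 _ _))
    | (exact absurd h.symm (h2 _ _))
    | (rw [hr (map_injective Sum.inr_injective h)])
    | (simp [qrel] at h ⊢; done)
    | (simp [qrel] at h; simp [h]; done)
    | skip

end Pool.Agent.H504.BC
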