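import Pool.Agent.H504.BC.Sys

/-!
# The extended system is the product with the quadric
-/

set_option autoImplicit false

open CategoryTheory AlgebraicGeometry MvPolynomial Pool.Agent.Y116.UV Pool.Agent.Z125.UN
  Pool.Agent.Q193.LT Pool.Agent.H854.SQ Pool.Agent.H367.OS

namespace Pool.Agent.H504.BC

section psum

variable {S : Type} [CommRing S] {K : ℕ}

/-- The partial sums. -/
def psum (g : Fin K → S) (j : ℕ) : S := ∑ l : Fin K, if (l : ℕ) < j then g l else 0

lemma psum_zero (g : Fin K → S) : psum g 0 = 0 := by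
  simp [psum]

lemma psum_succ (g : Fin K → S) (l : Fin K) : psum g (l + 1) = psum g l + g l := by
  have h : g l = ∑ i : Fin K, if i = l then g i else 0 := by simp
  rw [psum, psum, h, ← Finset.sum_add_distrib]
  refine Finset.sum_congr rfl fun i _ => ?_
  rcases lt_trichotomy (i : ℕ) (l : ℕ) with h1 | h1 | h1
  · have h2 : i ≠ l := fun h3 => by rw [h3] at h1; exact lt_irrefl _ h1
    rw [if_pos (by omega), if_pos h1, if_neg h2, add_zero]
  · have h2 : i = l := Fin.ext h1
    rw [if_pos (by omega), if_neg (by omega), if_pos h2, zero_add]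
  · have h2 : i ≠ l := fun h3 => by rw [h3] at h1; exact lt_irrefl _ h1
    rw [if_neg (by omega), if_neg (by omega), if_neg h2, add_zero]

lemma psum_last (g : Fin K → S) : psum g K = ∑ l, g l := by
  rw [psum]
  refine Finset.sum_congr rfl fun i _ => ?_
  rw [if_pos i.isLt]

lemma eq_psum (x y z : Fin K → S) (s : Fin (K + 1) → S) (h1 : ∀ l, x l * y l - z l = 0)
    (h2 : ∀ l : Fin K, s l.castSucc + z l - s l.succ = 0) (h3 : s 0 + s 0 - s 0 = 0) (j : Fin (K + 1)) :
    s j = psum (fun l => x l * y l) j := by
  induction j using Fin.induction with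
  | zero =>
    have h4 : s 0 = 0 := by linear_combination h3
    rw [h4, Fin.val_zero, psum_zero]
  | succ l hl =>
    rw [Fin.val_succ, psum_succ]
    rw [Fin.val_castSucc] at hl
    rw [← hl]
    linear_combination -(h2 l) - h1 l

lemma map_psum {S' F : Type} [CommRing S'] [FunLike F S S'] [RingHomClass F S S'] (φ : F)
    (g : Fin K → S) (j : ℕ) : φ (psum g j) = psum (fun l => φ (g l)) j := by
  rw [psum, psum, map_sum]
  refine Finset.sum_congr rfl fun i _ => ?_
  rw [apply_ite φ, map_zero]

end psum

section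

variable (R : Type) [CommRing R] {V W : Type} (K : ℕ) (r : W → Rel V)

/-- the images of the variables -/
noncomputable def toV : QV K V → QR (ZR R r) K
  | .inl (.inl (.inl l)) => qx _ l
  | .inl (.inl (.inr l)) => qy _ l
  | .inl (.inr (.inl l)) => qx _ l * qy _ l
  | .inl (.inr (.inr j)) => psum (fun l => qx _ l * qy _ l) j
  | .inr v => qb R _ K (zx _ v)

/-- from the extended system to the quadric over the zero set -/
noncomputable def toQ : ZR R (qrel K r) →ₐ[R] QR (ZR R r) K :=
  zlift _ (toV R K r) (by
    rintro (((l | l) | (_ | _)) | w)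
    · change aeval _ (relPoly R (.inl (vx l, vy l, vz l))) = 0
      rw [ev_mul]
      exact sub_self _
    · change aeval _ (relPoly R (.inr (.inl (vs l.castSucc, vz l, vs l.succ)))) = 0
      rw [ev_add]
      change psum _ (l.castSucc : ℕ) + _ - psum _ (l.succ : ℕ) = 0
      rw [Fin.val_succ, psum_succ, Fin.val_castSucc]
      exact sub_self _
    · change aeval _ (relPoly R (.inr (.inl (vs 0, vs 0, vs 0)))) = 0
      rw [ev_add]
      change psum _ ((0 : Fin (K + 1)) : ℕ) + psum _ ((0 : Fin (K + 1)) : ℕ) -
        psum _ ((0 : Fin (K + 1)) : ℕ) = 0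
      rw [Fin.val_zero, psum_zero, add_zero, sub_zero]
    · change aeval _ (relPoly R (.inr (.inr (vs (Fin.last K))))) = 0
      rw [ev_one]
      change psum _ ((Fin.last K : Fin (K + 1)) : ℕ) - 1 = 0
      rw [Fin.val_last, psum_last, q_rel, sub_self]
    · change aeval _ (relPoly R ((r w).map Sum.inr)) = 0
      rw [ev_map]
      exact aeval_zx (qb R (ZR R r) K) w)

lemma zr_mul {V' W' : Type} {r' : W' → Rel V'} (w : W') (i j l : V') (h : r' w = .inl (i, j, l)) :
    zx (fun w => relPoly R (r' w)) i * zx (fun w => relPoly R (r' w)) j -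
      zx (fun w => relPoly R (r' w)) l = 0 := by
  rw [← ev_mul (R := R) (fun v => zx (fun w => relPoly R (r' w)) v), ← h]
  exact aeval_zx' (f := fun w => relPoly R (r' w)) w

lemma zr_add {V' W' : Type} {r' : W' → Rel V'} (w : W') (i j l : V')
    (h : r' w = .inr (.inl (i, j, l))) :
    zx (fun w => relPoly R (r' w)) i + zx (fun w => relPoly R (r' w)) j -
      zx (fun w => relPoly R (r' w)) l = 0 := by
  rw [← ev_add (R := R) (fun v => zx (fun w => relPoly R (r' w)) v), ← h]
  exact aeval_zx' (f := fun w => relPoly R (r' w)) w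

lemma zr_one {V' W' : Type} {r' : W' → Rel V'} (w : W') (i : V')
    (h : r' w = .inr (.inr i)) :
    zx (fun w => relPoly R (r' w)) i - 1 = 0 := by
  rw [← ev_one (R := R) (fun v => zx (fun w => relPoly R (r' w)) v), ← h]
  exact aeval_zx' (f := fun w => relPoly R (r' w)) w

/-- the coordinates of the extended system -/
noncomputable abbrev cx (v : QV K V) : ZR R (qrel K r) := zx (fun w => relPoly R (qrel K r w)) v

lemma cx_s (j : Fin (K + 1)) :
    cx R K r (vs j) = psum (fun l => cx R K r (vx l) * cx R K r (vy l)) j :=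
  eq_psum (fun l => cx R K r (vx l)) (fun l => cx R K r (vy l)) (fun l => cx R K r (vz l))
    (fun j => cx R K r (vs j))
    (fun l => zr_mul R (r' := qrel K r) (.inl (.inl (.inl l))) _ _ _ rfl)
    (fun l => zr_add R (r' := qrel K r) (.inl (.inl (.inr l))) _ _ _ rfl)
    (zr_add R (r' := qrel K r) (.inl (.inr false)) _ _ _ rfl) j

lemma cx_z (l : Fin K) : cx R K r (vz l) = cx R K r (vx l) * cx R K r (vy l) :=
  (sub_eq_zero.1 (zr_mul R (r' := qrel K r) (.inl (.inl (.inl l))) _ _ _ rfl)).symm

lemma cx_sum : ∑ l, cx R K r (vx l) * cx R K r (vy l) = 1 := by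
  have h := cx_s R K r (Fin.last K)
  rw [Fin.val_last, psum_last] at h
  rw [← h]
  exact sub_eq_zero.1 (zr_one R (r' := qrel K r) (.inl (.inr true)) _ rfl)

/-- the inclusion of the zero set's ring -/
noncomputable def ofZ : ZR R r →ₐ[R] ZR R (qrel K r) :=
  zlift _ (fun v => cx R K r (Sum.inr v)) (fun w => by
    have h := aeval_zx' (R := R) (f := fun w => relPoly R (qrel K r w)) (.inr w)
    change aeval _ (relPoly R ((r w).map Sum.inr)) = 0 at h
    rw [ev_map] at h
    exact h)

/-- from the quadric over the zero set to the extended system -/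
noncomputable def ofQ : QR (ZR R r) K →ₐ[R] ZR R (qrel K r) :=
  qlift (ofZ R K r) (fun l => cx R K r (vx l)) (fun l => cx R K r (vy l)) (cx_sum R K r)

lemma ofQ_x (l : Fin K) : ofQ R K r (qx _ l) = cx R K r (vx l) := qlift_x _ _ _ _ l

lemma ofQ_y (l : Fin K) : ofQ R K r (qy _ l) = cx R K r (vy l) := qlift_y _ _ _ _ l

lemma toQ_x (v : QV K V) : toQ R K r (cx R K r v) = toV R K r v := zlift_x _ _ _ v

/-- **The extended system is the product with the quadric.** -/
noncomputable def qEquiv : ZR R (qrel K r) ≃ₐ[R] QR (ZR R r) K :=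
  AlgEquiv.ofAlgHom (toQ R K r) (ofQ R K r)
    (by
      apply q_ext
      · intro b
        have h : (toQ R K r).comp (ofZ R K r) = qb R (ZR R r) K := by
          apply z_ext
          intro v
          change toQ R K r (ofZ R K r (zx _ v)) = _
          rw [ofZ, zlift_x, toQ_x]
          rfl
        change toQ R K r (ofQ R K r (qb R _ K b)) = _
        rw [ofQ, qlift_b]
        exact DFunLike.congr_fun h b
      · intro l
        change toQ R K r (ofQ R K r (qx _ l)) = _
        rw [ofQ_x, toQ_x]
        rfl
      · intro l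
        change toQ R K r (ofQ R K r (qy _ l)) = _
        rw [ofQ_y, toQ_x]
        rfl)
    (by
      apply z_ext
      rintro (((l | l) | (l | j)) | v)
      · change ofQ R K r (toQ R K r (cx R K r (vx l))) = cx R K r (vx l)
        rw [toQ_x]
        exact ofQ_x R K r l
      · change ofQ R K r (toQ R K r (cx R K r (vy l))) = cx R K r (vy l)
        rw [toQ_x]
        exact ofQ_y R K r l
      · change ofQ R K r (toQ R K r (cx R K r (vz l))) = cx R K r (vz l)
        rw [toQ_x, cx_z, ← ofQ_x, ← ofQ_y, ← map_mul]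
        rfl
      · change ofQ R K r (toQ R K r (cx R K r (vs j))) = cx R K r (vs j)
        rw [toQ_x, cx_s]
        refine (map_psum (ofQ R K r) _ _).trans ?_
        congr 1
        funext l
        rw [map_mul, ofQ_x, ofQ_y]
      · change ofQ R K r (toQ R K r (cx R K r (Sum.inr v))) = cx R K r (Sum.inr v)
        rw [toQ_x]
        change ofQ R K r (qb R _ K (zx _ v)) = _
        rw [ofQ, qlift_b, ofZ, zlift_x])

end

end Pool.Agent.H504.BC
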