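import Pool.Agent.H504.BC.Sys2

/-!
# Tuning the dimension
-/

set_option autoImplicit false

open CategoryTheory AlgebraicGeometry MvPolynomial Pool.Agent.Y116.UV Pool.Agent.Z125.UN
  Pool.Agent.Q193.LT Pool.Agent.H854.SQ Pool.Agent.H367.OS

namespace Pool.Agent.H504.BC

section

variable (R : Type) [CommRing R] {V W U : Type} (r : W → Rel V)

/-- One more variable and more relations. -/
def orel (ρ : U → Rel (Unit ⊕ V)) : U ⊕ W → Rel (Unit ⊕ V)
  | .inl u => ρ u
  | .inr w => (r w).map Sum.inr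

/-- the coordinates -/
noncomputable abbrev ox (ρ : U → Rel (Unit ⊕ V)) (v : Unit ⊕ V) : ZR R (orel r ρ) :=
  zx (fun w => relPoly R (orel r ρ w)) v

/-- the coordinates -/
noncomputable abbrev rx (v : V) : ZR R r := zx (fun w => relPoly R (r w)) v

variable (ρ : U → Rel (Unit ⊕ V)) (a : ZR R r)

/-- the value `a` -/
noncomputable def oTo (h1 : ∀ u, aeval (Sum.elim (fun _ => a) (rx R r)) (relPoly R (ρ u)) = 0) :
    ZR R (orel r ρ) →ₐ[R] ZR R r :=
  zlift _ (Sum.elim (fun _ => a) (rx R r)) (by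
    rintro (u | w)
    · exact h1 u
    · change aeval _ (relPoly R ((r w).map Sum.inr)) = 0
      rw [ev_map]
      exact aeval_zx' (R := R) (f := fun w => relPoly R (r w)) w)

lemma oTo_x (h1 : ∀ u, aeval (Sum.elim (fun _ => a) (rx R r)) (relPoly R (ρ u)) = 0)
    (v : Unit ⊕ V) : oTo R r ρ a h1 (ox R r ρ v) = Sum.elim (fun _ => a) (rx R r) v :=
  zlift_x _ _ _ v

/-- the inclusion -/
noncomputable def oFrom : ZR R r →ₐ[R] ZR R (orel r ρ) :=
  zlift _ (fun v => ox R r ρ (.inr v)) (by
    intro w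
    have h := aeval_zx' (R := R) (f := fun w => relPoly R (orel r ρ w)) (.inr w)
    change aeval _ (relPoly R ((r w).map Sum.inr)) = 0 at h
    rw [ev_map] at h
    exact h)

lemma oFrom_x (v : V) : oFrom R r ρ (rx R r v) = ox R r ρ (.inr v) := zlift_x _ _ _ v

/-- A further variable with the value `a`. -/
noncomputable def oEquiv
    (h1 : ∀ u, aeval (Sum.elim (fun _ => a) (rx R r)) (relPoly R (ρ u)) = 0)
    (h2 : ox R r ρ (.inl ()) = oFrom R r ρ a) : ZR R (orel r ρ) ≃ₐ[R] ZR R r :=
  AlgEquiv.ofAlgHom (oTo R r ρ a h1) (oFrom R r ρ)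
    (by
      apply z_ext
      intro v
      change oTo R r ρ a h1 (oFrom R r ρ (rx R r v)) = rx R r v
      rw [oFrom_x, oTo_x]
      rfl)
    (by
      apply z_ext
      rintro (⟨⟩ | v)
      · change oFrom R r ρ (oTo R r ρ a h1 (ox R r ρ (Sum.inl ()))) = ox R r ρ (.inl ())
        rw [oTo_x, h2]
        rfl
      · change oFrom R r ρ (oTo R r ρ a h1 (ox R r ρ (Sum.inr v))) = ox R r ρ (.inr v)
        rw [oTo_x]
        exact oFrom_x R r ρ v)

/-- The relations `o o = o` and `o + o = o`. -/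
def rho0 (V : Type) : Bool → Rel (Unit ⊕ V)
  | false => .inl (.inl (), .inl (), .inl ())
  | true => .inr (.inl (.inl (), .inl (), .inl ()))

/-- The relation `u = 1`. -/
def rho1 (V : Type) : Unit → Rel (Unit ⊕ V) := fun _ => .inr (.inr (.inl ()))

lemma rho0_gen {V' S : Type} [CommRing S] [Algebra R S] (x : V' → S) (o : V') (h : x o = 0) :
    aeval x (relPoly R (.inl (o, o, o))) = 0 ∧ aeval x (relPoly R (.inr (.inl (o, o, o)))) = 0 := by
  rw [ev_mul, ev_add, h]
  constructor <;> ring

lemma rho1_gen {V' S : Type} [CommRing S] [Algebra R S] (x : V' → S) (o : V') (h : x o = 1) :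
    aeval x (relPoly R (.inr (.inr o))) = 0 := by
  rw [ev_one, h, sub_self]

lemma rho0_aux (u : Bool) :
    aeval (Sum.elim (fun _ => (0 : ZR R r)) (rx R r)) (relPoly R (rho0 V u)) = 0 := by
  have h := rho0_gen R (Sum.elim (fun _ => (0 : ZR R r)) (rx R r)) (.inl ()) rfl
  rcases u with _ | _
  · exact h.1
  · exact h.2

lemma rho1_aux (u : Unit) :
    aeval (Sum.elim (fun _ => (1 : ZR R r)) (rx R r)) (relPoly R (rho1 V u)) = 0 :=
  rho1_gen R (Sum.elim (fun _ => (1 : ZR R r)) (rx R r)) (.inl ()) rfl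

/-- The variable `o` does not change the ring. -/
noncomputable def oEquiv0 : ZR R (orel r (rho0 V)) ≃ₐ[R] ZR R r :=
  oEquiv R r (rho0 V) 0 (rho0_aux R r)
    (by
      have h := zr_add R (r' := orel r (rho0 V)) (.inl true) _ _ _ rfl
      refine Eq.trans ?_ (map_zero (oFrom R r (rho0 V))).symm
      exact (add_sub_cancel_right _ _).symm.trans h)

/-- The variable `u` does not change the ring. -/
noncomputable def oEquiv1 : ZR R (orel r (rho1 V)) ≃ₐ[R] ZR R r :=
  oEquiv R r (rho1 V) 1 (rho1_aux R r)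
    (by
      have h := zr_one R (r' := orel r (rho1 V)) (.inl ()) _ rfl
      refine Eq.trans ?_ (map_one (oFrom R r (rho1 V))).symm
      exact sub_eq_zero.1 h)

end

section

variable {V W U : Type} {r : W → Rel V}

lemma map_inr_ne_left (a : Rel V) (u : Unit ⊕ V) (v w : Unit ⊕ V)
    (h : Rel.map Sum.inr a = .inl (.inl (), v, w) ∨ Rel.map Sum.inr a = .inr (.inl (.inl (), v, w)) ∨
      Rel.map Sum.inr a = .inr (.inr (.inl ()))) : False := by
  rcases a with ⟨a, b, c⟩ | ⟨a, b, c⟩ | a <;> simp [Rel.map] at h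

lemma orel_injective {ρ : U → Rel (Unit ⊕ V)} (hr : Function.Injective r)
    (hρ : Function.Injective ρ) (h : ∀ u w, ρ u ≠ Rel.map Sum.inr (r w)) :
    Function.Injective (orel r ρ) := by
  rintro (u | w) (u' | w') h1
  · rw [hρ h1]
  · exact absurd h1 (h u w')
  · exact absurd h1.symm (h u' w)
  · rw [hr (map_injective Sum.inr_injective h1)]

lemma orel0_injective (hr : Function.Injective r) :
    Function.Injective (orel r (rho0 V)) := by
  refine orel_injective hr ?_ ?_
  · rintro (_ | _) (_ | _) h <;> simp [rho0] at h ⊢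
  · rintro (_ | _) w h
    · exact map_inr_ne_left (r w) (.inl ()) (.inl ()) (.inl ()) (.inl h.symm)
    · exact map_inr_ne_left (r w) (.inl ()) (.inl ()) (.inl ()) (.inr (.inl h.symm))

lemma orel1_injective (hr : Function.Injective r) :
    Function.Injective (orel r (rho1 V)) := by
  refine orel_injective hr (fun _ _ _ => rfl) ?_
  rintro ⟨⟩ w h
  exact map_inr_ne_left (r w) (.inl ()) (.inl ()) (.inl ()) (.inr (.inr h.symm))

end

section

variable (k : Type) [Field k] (B : Type) [CommRing B] [Algebra k B]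

/-- There is a system of `c + 1 - q'` relations in `q' + c + 1 - β` variables whose zero set has the
property of index `q'` iff `Spec B` has the property of index `q`. -/
def St (q q' c β : ℤ) : Prop :=
  ∃ (V W : Type) (_ : Fintype V) (_ : Fintype W) (r : W → Rel V), Function.Injective r ∧
    (Fintype.card W : ℤ) = c + 1 - q' ∧ (Fintype.card V : ℤ) = q' + c + 1 - β ∧
    ∀ P : ℤ → Sch k → Prop, Lined P → (P q' (aff k (ZR k r)) ↔ P q (aff k B))

variable {k B} {q q' c β : ℤ}

lemma ftZR {V W : Type} [Finite V] (r : W → Rel V) : Algebra.FiniteType k (ZR k r) :=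
  have h1 : Algebra.FiniteType k (MvPolynomial V k) := ftMv k V
  Algebra.FiniteType.trans (S := MvPolynomial V k) h1 inferInstance

lemma St.quad (h : St k B q q' c β) (K : ℕ) (hK : q' < K) :
    St k B q (q' + K - 1) (c + 3 * K + 1) (β - 1) := by
  obtain ⟨V, W, hV, hW, r, hr, h1, h2, h3⟩ := h
  refine ⟨QV K V, QW K W, inferInstance, inferInstance, qrel K r, qrel_injective K hr, ?_, ?_, ?_⟩
  · simp only [Fintype.card_sum, Fintype.card_fin, Fintype.card_bool]
    push_cast
    rw [h1]
    ring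
  · simp only [Fintype.card_sum, Fintype.card_fin]
    push_cast
    rw [h2]
    ring
  · intro P hP
    have h4 : Algebra.FiniteType k (ZR k r) := ftZR r
    have h5 : Algebra.FiniteType k (ZR k (qrel K r)) := ftZR _
    have h6 : Algebra.FiniteType k (QR (ZR k r) K) := Algebra.FiniteType.equiv h5 (qEquiv k K r)
    rw [← h3 P hP, ← quad_iff hP (ZR k r) K q' hK, add_sub_assoc]
    exact ⟨hP.iso_alg (qEquiv k K r), hP.iso_alg (qEquiv k K r).symm⟩

lemma St.zero (h : St k B q q' c β) : St k B q q' (c + 2) (β + 1) := by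
  obtain ⟨V, W, hV, hW, r, hr, h1, h2, h3⟩ := h
  refine ⟨Unit ⊕ V, Bool ⊕ W, inferInstance, inferInstance, orel r (rho0 V), orel0_injective hr,
    ?_, ?_, ?_⟩
  · simp only [Fintype.card_sum, Fintype.card_bool]
    push_cast
    rw [h1]
    ring
  · simp only [Fintype.card_sum, Fintype.card_unit]
    push_cast
    rw [h2]
    ring
  · intro P hP
    have h4 : Algebra.FiniteType k (ZR k r) := ftZR r
    have h5 : Algebra.FiniteType k (ZR k (orel r (rho0 V))) := ftZR _
    rw [← h3 P hP]
    exact ⟨hP.iso_alg (oEquiv0 k r), hP.iso_alg (oEquiv0 k r).symm⟩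

lemma St.one (h : St k B q q' c β) : St k B q q' (c + 1) β := by
  obtain ⟨V, W, hV, hW, r, hr, h1, h2, h3⟩ := h
  refine ⟨Unit ⊕ V, Unit ⊕ W, inferInstance, inferInstance, orel r (rho1 V), orel1_injective hr,
    ?_, ?_, ?_⟩
  · simp only [Fintype.card_sum, Fintype.card_unit]
    push_cast
    rw [h1]
    ring
  · simp only [Fintype.card_sum, Fintype.card_unit]
    push_cast
    rw [h2]
    ring
  · intro P hP
    have h4 : Algebra.FiniteType k (ZR k r) := ftZR r
    have h5 : Algebra.FiniteType k (ZR k (orel r (rho1 V))) := ftZR _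
    rw [← h3 P hP]
    exact ⟨hP.iso_alg (oEquiv1 k r), hP.iso_alg (oEquiv1 k r).symm⟩

/-- The excess of the equations can be chosen. -/
lemma St.tune (b : ℤ) (t : ℕ) : ∀ {q' c β : ℤ}, (β - b).natAbs = t → St k B q q' c β →
    ∃ q'' c'' : ℤ, St k B q q'' c'' b := by
  induction t with
  | zero =>
    intro q' c β hβ h
    have h0 : β = b := by omega
    subst h0
    exact ⟨_, _, h⟩
  | succ t ih =>
    intro q' c β hβ h
    rcases lt_or_ge β b with hneg | hpos
    · exact ih (by omega) h.zero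
    · exact ih (by omega) (h.quad (q' + 1).toNat (by omega))

lemma St.raise {q' c : ℤ} (h : St k B q q' c β) (d : ℕ) : St k B q q' (c + d) β := by
  induction d with
  | zero => simpa using h
  | succ d ih =>
    push_cast
    rw [← add_assoc]
    exact ih.one

/-- The start. -/
lemma St.start (hk : IsPrimeField k) [Algebra.FiniteType k B] (q : ℤ) :
    ∃ q' c β : ℤ, St k B q q' c β := by
  classical
  obtain ⟨m₀, hm⟩ := exists_fin (B := B) hk
  obtain ⟨b, hb, hp⟩ := hm m₀ le_rfl
  let s : Finset (Rel (Fin m₀)) := Finset.univ.filter (· ∈ holds k b)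
  let r : s → Rel (Fin m₀) := fun w => w.1
  have h1 : Ideal.span (Set.range fun w => relPoly k (r w)) =
      RingHom.ker (aeval b : MvPolynomial (Fin m₀) k →ₐ[k] B) := by
    have h2 : (Set.range fun w => relPoly k (r w)) = relPoly k '' holds k b := by
      ext p
      constructor
      · rintro ⟨w, rfl⟩
        exact ⟨w.1, (Finset.mem_filter.1 w.2).2, rfl⟩
      · rintro ⟨w, hw, rfl⟩
        exact ⟨⟨w, Finset.mem_filter.2 ⟨Finset.mem_univ _, hw⟩⟩, rfl⟩
    rw [h2]
    exact le_antisymm (fun f hf => span_le_of_holds b hf) fun f hf => hp f hf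
  let e : ZR k r ≃ₐ[k] B := (Ideal.quotientEquivAlgOfEq k h1).trans
    (Ideal.quotientKerAlgEquivOfSurjective hb)
  refine ⟨q, q + Fintype.card s - 1, 2 * q + Fintype.card s - Fintype.card (Fin m₀), Fin m₀, s,
    inferInstance, inferInstance, r, Subtype.val_injective, by ring, by ring, fun P hP => ?_⟩
  have h4 : Algebra.FiniteType k (ZR k r) := ftZR r
  exact ⟨hP.iso_alg e, hP.iso_alg e.symm⟩

end

end Pool.Agent.H504.BC
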